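import Mathlib

/-!
# Finite quotients of weakly branch groups

A finite index normal subgroup of a weakly branch group which misses one well chosen element is
contained in the stabiliser of a given level.  Consequently, if a weakly branch group `G` sits in a
residually finite group `Γ` and `t⁻¹ H t ≤ G` for a subgroup `H` of index `m` of `G`, the image of
`t⁻¹ H t` in the group induced by `G` on every level has index at most `m`.
-/

set_option autoImplicit false

namespace Pool.Agent.Helper11.PS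

/-- The group `G` acts on `Ω` (the boundary of a rooted tree) as a weakly branch group, `E n`
being the relation `to have the same prefix of length n`. -/
structure WeaklyBranch (G : Type*) [Group G] {Ω : Type*} [MulAction G Ω] (E : ℕ → Setoid Ω) :
    Prop where
  /-- the action is faithful -/
  faithful : ∀ g : G, (∀ x : Ω, g • x = x) → g = 1
  /-- the relations decrease -/
  decreasing : ∀ n, E (n + 1) ≤ E n
  /-- the relations separate the points -/
  separating : ∀ x y, (∀ n, (E n).r x y) → x = y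
  /-- the group preserves the relations -/
  invariant : ∀ n (g : G) x y, (E n).r x y → (E n).r (g • x) (g • y)
  /-- the group is transitive on the classes of every level -/
  transitive : ∀ n x y, ∃ g : G, (E n).r (g • x) y
  /-- the rigid stabilisers of the vertices are not trivial -/
  rigid : ∀ n x, ∃ g : G, g ≠ 1 ∧ ∀ y, ¬ (E n).r y x → g • y = y

namespace WeaklyBranch

variable {G : Type*} [Group G] {Ω : Type*} [MulAction G Ω] {E : ℕ → Setoid Ω}

theorem mono (hG : WeaklyBranch G E) {n m : ℕ} (h : n ≤ m) {x y : Ω} (hxy : (E m).r x y) :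
    (E n).r x y := by
  induction m, h using Nat.le_induction with
  | base => exact hxy
  | succ m _ ih => exact ih (hG.decreasing m hxy)

/-- The rigid stabiliser of a vertex is not commutative. -/
theorem exists_ne (hG : WeaklyBranch G E) (n : ℕ) (x : Ω) :
    ∃ a b : G, (∀ y, ¬ (E n).r y x → a • y = y) ∧ (∀ y, ¬ (E n).r y x → b • y = y) ∧
      a * b ≠ b * a := by
  obtain ⟨g, hg1, hg⟩ := hG.rigid n x
  have hex : ∃ y : Ω, g • y ≠ y := by
    by_contra hcon
    push Not at hcon
    exact hg1 (hG.faithful g hcon)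
  obtain ⟨y, hy⟩ := hex
  have hyx : (E n).r y x := by
    by_contra hcon
    exact hy (hg y hcon)
  have hex : ∃ m, ¬ (E m).r (g • y) y := by
    by_contra hcon
    push Not at hcon
    exact hy (hG.separating _ _ hcon)
  obtain ⟨m, hm⟩ := hex
  have hm' : ¬ (E (max n m)).r (g • y) y := fun h => hm (hG.mono (le_max_right _ _) h)
  obtain ⟨h, hh1, hh⟩ := hG.rigid (max n m) y
  have hex : ∃ z : Ω, h • z ≠ z := by
    by_contra hcon
    push Not at hcon
    exact hh1 (hG.faithful h hcon)
  obtain ⟨z, hz⟩ := hex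
  have hzy : (E (max n m)).r z y := by
    by_contra hcon
    exact hz (hh z hcon)
  refine ⟨g, h, hg, ?_, ?_⟩
  · intro w hw
    apply hh
    intro hwy
    exact hw ((E n).trans (hG.mono (le_max_left _ _) hwy) hyx)
  · intro hgh
    have h1 : h • (g • z) = g • z := by
      apply hh
      intro hcon
      have h2 : (E (max n m)).r (g • z) (g • y) := hG.invariant _ g _ _ hzy
      exact hm' ((E (max n m)).trans ((E (max n m)).symm h2) hcon)
    have h2 : g • (h • z) = g • z := by
      rw [← mul_smul, hgh, mul_smul, h1]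
    exact hz (smul_left_cancel g h2)

/-- Commutators of elements of the rigid stabiliser of `x` lie in every normal subgroup which
contains an element moving the vertex. -/
theorem mem_of_normal (hG : WeaklyBranch G E) (n : ℕ) (x : Ω) (K : Subgroup G) [K.Normal]
    (a b : G) (ha : ∀ y, ¬ (E n).r y x → a • y = y) (hb : ∀ y, ¬ (E n).r y x → b • y = y)
    (g : G) (hgK : g ∈ K) (hg : ¬ (E n).r (g • x) x) : a⁻¹ * b * a * b⁻¹ ∈ K := by
  have hinv : ∀ (c : G), (∀ y, ¬ (E n).r y x → c • y = y) → ∀ y, (E n).r y x →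
      (E n).r (c • y) x := by
    intro c hc y hy
    by_contra hcon
    have h1 := hc (c • y) hcon
    have h2 : c • y = y := smul_left_cancel c h1
    exact hcon (by rw [h2]; exact hy)
  -- `g a g⁻¹` commutes with `b`
  have hcomm : (g * a * g⁻¹) * b = b * (g * a * g⁻¹) := by
    have key : ∀ y : Ω, ((g * a * g⁻¹) * b) • y = (b * (g * a * g⁻¹)) • y := by
      intro y
      have hfix : ∀ z : Ω, (E n).r z x → (g * a * g⁻¹) • z = z := by
        intro z hz
        have h1 : ¬ (E n).r (g⁻¹ • z) x := by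
          intro hcon
          have h2 := hG.invariant n g _ _ hcon
          rw [smul_inv_smul] at h2
          exact hg ((E n).trans ((E n).symm h2) hz)
        rw [mul_smul, mul_smul, ha _ h1, smul_inv_smul]
      by_cases hy : (E n).r y x
      · rw [mul_smul, mul_smul b, hfix y hy, hfix _ (hinv b hb y hy)]
      · rw [mul_smul, mul_smul b, hb y hy]
        have h3 : ¬ (E n).r ((g * a * g⁻¹) • y) x := by
          intro hcon
          have h4 := hfix _ hcon
          have h5 : (g * a * g⁻¹) • y = y := smul_left_cancel _ h4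
          rw [h5] at hcon
          exact hy hcon
        rw [hb _ h3]
    have h6 : (b * (g * a * g⁻¹))⁻¹ * ((g * a * g⁻¹) * b) = 1 := by
      apply hG.faithful
      intro y
      rw [mul_smul, key, inv_smul_smul]
    exact (inv_mul_eq_one.1 h6).symm
  have hk1 : a⁻¹ * g * a * g⁻¹ ∈ K := by
    have h1 : a⁻¹ * g * a ∈ K := by
      have := Subgroup.Normal.conj_mem (H := K) inferInstance g hgK a⁻¹
      rwa [inv_inv] at this
    exact K.mul_mem h1 (K.inv_mem hgK)
  have hk2 : (a⁻¹ * g * a * g⁻¹) * (b * (a⁻¹ * g * a * g⁻¹)⁻¹ * b⁻¹) ∈ K :=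
    K.mul_mem hk1 (Subgroup.Normal.conj_mem (H := K) inferInstance _ (K.inv_mem hk1) b)
  have he : (a⁻¹ * g * a * g⁻¹) * (b * (a⁻¹ * g * a * g⁻¹)⁻¹ * b⁻¹) = a⁻¹ * b * a * b⁻¹ := by
    have h1 : (a⁻¹ * g * a * g⁻¹) = a⁻¹ * (g * a * g⁻¹) := by group
    rw [h1]
    generalize g * a * g⁻¹ = u at hcomm
    calc a⁻¹ * u * (b * (a⁻¹ * u)⁻¹ * b⁻¹) = a⁻¹ * (u * b) * (u⁻¹ * a * b⁻¹) := by group
      _ = a⁻¹ * (b * u) * (u⁻¹ * a * b⁻¹) := by rw [hcomm]
      _ = a⁻¹ * b * a * b⁻¹ := by group
  rw [← he]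
  exact hk2

/-- For every level there is an element such that every normal subgroup which does not contain it
stabilises the level. -/
theorem exists_test (hG : WeaklyBranch G E) (n : ℕ) [Nonempty Ω] :
    ∃ c : G, c ≠ 1 ∧ ∀ K : Subgroup G, K.Normal → c ∉ K → ∀ g ∈ K, ∀ x, (E n).r (g • x) x := by
  obtain ⟨x₀⟩ := ‹Nonempty Ω›
  obtain ⟨a, b, ha, hb, hab⟩ := hG.exists_ne n x₀
  refine ⟨a⁻¹ * b * a * b⁻¹, ?_, ?_⟩
  · intro h
    apply hab
    have h1 : a⁻¹ * (b * a) = b := by
      have := mul_inv_eq_one.1 h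
      rw [← mul_assoc]; exact this
    rw [inv_mul_eq_iff_eq_mul] at h1
    exact h1.symm
  · intro K hK hc g hg x
    by_contra hcon
    apply hc
    obtain ⟨s, hs⟩ := hG.transitive n x x₀
    refine hG.mem_of_normal n x₀ K a b ha hb (s * g * s⁻¹) (hK.conj_mem g hg s) ?_
    intro h
    apply hcon
    -- transport
    have h1 : (E n).r (s⁻¹ • x₀) x := by
      have := hG.invariant n s⁻¹ _ _ hs
      rw [inv_smul_smul] at this
      exact (E n).symm this
    have h2 : (E n).r (g • (s⁻¹ • x₀)) (g • x) := hG.invariant n g _ _ h1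
    have h3 : (E n).r (s⁻¹ • ((s * g * s⁻¹) • x₀)) (s⁻¹ • x₀) := hG.invariant n s⁻¹ _ _ h
    have h4 : s⁻¹ • ((s * g * s⁻¹) • x₀) = g • (s⁻¹ • x₀) := by
      rw [← mul_smul, ← mul_smul]
      congr 1
      group
    rw [h4] at h3
    exact (E n).trans ((E n).symm h2) ((E n).trans h3 h1)

end WeaklyBranch

/-- The main step: in a residually finite group, conjugation can not shrink a weakly branch
subgroup. -/
theorem index_le {Γ : Type*} [Group Γ]
    (hrf : ∀ γ : Γ, γ ≠ 1 → ∃ (N : ℕ) (φ : Γ →* Equiv.Perm (Fin N)), φ γ ≠ 1)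
    (G : Subgroup Γ) {Ω : Type*} [MulAction G Ω] {E : ℕ → Setoid Ω} (hG : WeaklyBranch G E)
    (H : Subgroup G) (m : ℕ) (hm : H.index = m) (hm0 : m ≠ 0)
    (t : Γ) (ht : ∀ h : H, t⁻¹ * ((h : G) : Γ) * t ∈ G) (n : ℕ) :
    ∃ C : Finset G, C.card ≤ m ∧ ∀ g : G, ∃ c ∈ C, ∃ h : H,
      ∀ x, (E n).r (g • x) ((c * (⟨_, ht h⟩ : G)) • x) := by
  classical
  rcases isEmpty_or_nonempty Ω with hΩ | hΩ
  · refine ⟨{1}, ?_, fun g => ⟨1, Finset.mem_singleton_self _, 1, fun x => (hΩ.false x).elim⟩⟩
    rw [Finset.card_singleton]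
    omega
  obtain ⟨c, hc1, hc⟩ := hG.exists_test n
  obtain ⟨N, φ, hφ⟩ := hrf (c : Γ) (fun h => hc1 (Subtype.ext h))
  let ψ : G →* Equiv.Perm (Fin N) := φ.comp G.subtype
  have hK : ∀ g ∈ ψ.ker, ∀ x, (E n).r (g • x) x :=
    hc ψ.ker inferInstance (fun h => hφ (MonoidHom.mem_ker.1 h))
  -- conjugation by `t`
  let σ : H →* G :=
    { toFun := fun h => ⟨_, ht h⟩
      map_one' := by
        apply Subtype.ext
        simp
      map_mul' := by
        intro a b
        apply Subtype.ext
        simp only [Subgroup.coe_mul]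
        group }
  let A : Subgroup (Equiv.Perm (Fin N)) := H.map ψ
  let B : Subgroup (Equiv.Perm (Fin N)) := (ψ.comp σ).range
  have hAP : A ≤ ψ.range := by
    rintro _ ⟨h, _, rfl⟩
    exact ⟨h, rfl⟩
  have hBP : B ≤ ψ.range := by
    rintro _ ⟨h, rfl⟩
    exact ⟨σ h, rfl⟩
  have hval : ∀ h : H, ψ (σ h) = (φ t)⁻¹ * ψ (h : G) * φ t := by
    intro h
    show φ (t⁻¹ * ((h : G) : Γ) * t) = (φ t)⁻¹ * φ ((h : G) : Γ) * φ t
    rw [map_mul, map_mul, map_inv]
  have hcard : Nat.card A = Nat.card B := by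
    refine Nat.card_congr ?_
    refine Equiv.ofBijective (fun u => ⟨(φ t)⁻¹ * u.1 * φ t, ?_⟩) ⟨?_, ?_⟩
    · obtain ⟨_, h, hh, rfl⟩ := u
      exact ⟨⟨h, hh⟩, hval ⟨h, hh⟩⟩
    · intro u v huv
      have h1 : (φ t)⁻¹ * u.1 * φ t = (φ t)⁻¹ * v.1 * φ t := congrArg Subtype.val huv
      exact Subtype.ext (mul_left_cancel (mul_right_cancel h1))
    · rintro ⟨_, h, rfl⟩
      exact ⟨⟨ψ h, (h : G), h.2, rfl⟩, Subtype.ext (hval h).symm⟩
  have hidx : (B.comap ψ).index = (A.comap ψ).index := by
    rw [Subgroup.index_comap, Subgroup.index_comap]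
    have hA := Subgroup.card_mul_index (A.subgroupOf ψ.range)
    have hB := Subgroup.card_mul_index (B.subgroupOf ψ.range)
    have hA' : Nat.card (A.subgroupOf ψ.range) = Nat.card A :=
      Nat.card_congr (Subgroup.subgroupOfEquivOfLe hAP).toEquiv
    have hB' : Nat.card (B.subgroupOf ψ.range) = Nat.card B :=
      Nat.card_congr (Subgroup.subgroupOfEquivOfLe hBP).toEquiv
    rw [hA'] at hA
    rw [hB', ← hcard, ← hA] at hB
    exact Nat.eq_of_mul_eq_mul_left Nat.card_pos hB
  have hle : (A.comap ψ).index ≤ m := by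
    have h1 : H ≤ A.comap ψ := fun h hh => ⟨h, hh, rfl⟩
    have h2 := Subgroup.index_dvd_of_le h1
    rw [hm] at h2
    exact Nat.le_of_dvd (Nat.pos_of_ne_zero hm0) h2
  have hpos : (A.comap ψ).index ≠ 0 := by
    have h1 : H ≤ A.comap ψ := fun h hh => ⟨h, hh, rfl⟩
    have h2 := Subgroup.index_dvd_of_le h1
    rw [hm] at h2
    intro h3
    rw [h3, zero_dvd_iff] at h2
    exact hm0 h2
  have : (B.comap ψ).FiniteIndex := ⟨by rw [hidx]; exact hpos⟩
  have : Fintype (G ⧸ B.comap ψ) := Fintype.ofFinite _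
  refine ⟨Finset.univ.image (fun q : G ⧸ B.comap ψ => q.out), ?_, ?_⟩
  · refine Finset.card_image_le.trans ?_
    rw [Finset.card_univ, ← Nat.card_eq_fintype_card]
    show (B.comap ψ).index ≤ m
    rw [hidx]
    exact hle
  · intro g
    refine ⟨(QuotientGroup.mk g : G ⧸ B.comap ψ).out, Finset.mem_image_of_mem _ (Finset.mem_univ _),
      ?_⟩
    have h1 : (QuotientGroup.mk g : G ⧸ B.comap ψ).out⁻¹ * g ∈ B.comap ψ := by
      rw [← QuotientGroup.eq]
      simp
    generalize (QuotientGroup.mk g : G ⧸ B.comap ψ).out = d at h1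
    obtain ⟨h, hh⟩ := h1
    refine ⟨h, fun x => ?_⟩
    have h2 : g * (d * σ h)⁻¹ ∈ ψ.ker := by
      rw [MonoidHom.mem_ker, map_mul, map_inv, map_mul]
      have h3 : ψ (σ h) = ψ (d⁻¹ * g) := hh
      rw [h3, map_mul, map_inv]
      group
    have h4 := hK _ h2 ((d * σ h) • x)
    rw [← mul_smul, inv_mul_cancel_right] at h4
    exact h4

end Pool.Agent.Helper11.PS
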