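import Mathlib

/-!
# Følner sets from an invariant mean

A finitely additive left invariant mean on all subsets of a group gives Følner sets.  The proof is
the one by Hall's marriage theorem: if Følner's condition fails, some finite set `U` satisfies
`2 |E| ≤ |U E|` for all finite sets `E`, and a perfect `(1,2)`-matching along `U` contradicts the
mean.
-/

set_option autoImplicit false

open scoped Pointwise

namespace Pool.Agent.Helper11.PS

/-- A left invariant finitely additive mean. -/
def HasMean (Q : Type*) [Group Q] : Prop :=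
  ∃ μ : Set Q → ℝ, (∀ A, 0 ≤ μ A) ∧ μ Set.univ = 1 ∧
    (∀ A B : Set Q, Disjoint A B → μ (A ∪ B) = μ A + μ B) ∧
    ∀ (g : Q) (A : Set Q), μ ((fun x => g * x) '' A) = μ A

/-- Følner's condition. -/
def Folner (Q : Type*) [Group Q] : Prop :=
  ∀ (S : Finset Q) (ε : ℝ), 0 < ε → ∃ E : Finset Q, E.Nonempty ∧
    ∀ s ∈ S, ∃ B : Finset Q, (B.card : ℝ) ≤ ε * E.card ∧ ∀ x ∈ E, s * x ∈ E ∨ x ∈ B

section mean

variable {Q : Type*} {μ : Set Q → ℝ}

theorem mean_empty (hadd : ∀ A B : Set Q, Disjoint A B → μ (A ∪ B) = μ A + μ B) : μ ∅ = 0 := by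
  have h := hadd ∅ ∅ (Set.disjoint_empty _)
  simp only [Set.union_empty] at h
  linarith

theorem mean_biUnion (hadd : ∀ A B : Set Q, Disjoint A B → μ (A ∪ B) = μ A + μ B)
    {ι : Type*} (I : Finset ι) (A : ι → Set Q)
    (hd : ∀ i ∈ I, ∀ j ∈ I, i ≠ j → Disjoint (A i) (A j)) :
    μ (⋃ i ∈ I, A i) = ∑ i ∈ I, μ (A i) := by
  classical
  induction I using Finset.induction_on with
  | empty => simp [mean_empty hadd]
  | insert a I ha ih =>
    rw [Finset.set_biUnion_insert, Finset.sum_insert ha, hadd, ih]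
    · intro i hi j hj hij
      exact hd i (Finset.mem_insert_of_mem hi) j (Finset.mem_insert_of_mem hj) hij
    · rw [Set.disjoint_iUnion₂_right]
      intro i hi
      exact hd a (Finset.mem_insert_self _ _) i (Finset.mem_insert_of_mem hi)
        (fun h => ha (h ▸ hi))

theorem mean_mono (h0 : ∀ A, 0 ≤ μ A)
    (hadd : ∀ A B : Set Q, Disjoint A B → μ (A ∪ B) = μ A + μ B) {A B : Set Q} (h : A ⊆ B) :
    μ A ≤ μ B := by
  have h1 := hadd A (B \ A) Set.disjoint_sdiff_right
  rw [Set.union_sdiff_cancel h] at h1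
  have h2 := h0 (B \ A)
  linarith

end mean

/-- No doubling in a group with a mean. -/
theorem no_doubling {Q : Type*} [Group Q] [DecidableEq Q] (hm : HasMean Q) (U : Finset Q)
    (hU : ∀ E : Finset Q, 2 * E.card ≤ (U * E).card) : False := by
  classical
  obtain ⟨μ, h0, h1, hadd, hinv⟩ := hm
  -- Hall
  have hall : ∀ s : Finset (Q × Bool),
      s.card ≤ (s.biUnion (fun x : Q × Bool => U * {x.1})).card := by
    intro s
    have e : s.biUnion (fun x : Q × Bool => U * {x.1}) = U * s.image Prod.fst := by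
      ext y
      simp only [Finset.mem_biUnion, Finset.mem_mul, Finset.mem_singleton, Finset.mem_image]
      constructor
      · rintro ⟨x, hx, u, hu, z, rfl, rfl⟩
        exact ⟨u, hu, x.1, ⟨x, hx, rfl⟩, rfl⟩
      · rintro ⟨u, hu, z, ⟨x, hx, rfl⟩, rfl⟩
        exact ⟨x, hx, u, hu, x.1, rfl, rfl⟩
    rw [e]
    refine le_trans ?_ (hU _)
    have : s ⊆ (s.image Prod.fst) ×ˢ (Finset.univ : Finset Bool) := by
      intro x hx
      rw [Finset.mem_product]
      exact ⟨Finset.mem_image_of_mem _ hx, Finset.mem_univ _⟩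
    have h2 := Finset.card_le_card this
    rw [Finset.card_product] at h2
    have : (Finset.univ : Finset Bool).card = 2 := rfl
    rw [this] at h2
    omega
  obtain ⟨f, hfinj, hf⟩ := (Finset.all_card_le_biUnion_card_iff_exists_injective _).1 hall
  have hc : ∀ x : Q × Bool, ∃ u ∈ U, f x = u * x.1 := by
    intro x
    have := hf x
    simp only [Finset.mem_mul, Finset.mem_singleton] at this
    obtain ⟨u, hu, z, rfl, h⟩ := this
    exact ⟨u, hu, h.symm⟩
  choose c hcU hcf using hc
  let A : Q × Bool → Set Q := fun i => {x | c (x, i.2) = i.1}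
  have hcover : ∀ b : Bool, ∑ u ∈ U, μ (A (u, b)) = 1 := by
    intro b
    rw [← mean_biUnion hadd, ← h1]
    · congr 1
      ext x
      simp only [Set.mem_iUnion, Set.mem_univ, iff_true]
      exact ⟨c (x, b), hcU _, rfl⟩
    · intro i _ j _ hij
      rw [Set.disjoint_left]
      intro x hx hy
      exact hij (hx.symm.trans hy)
  have hsum : ∑ i ∈ U ×ˢ (Finset.univ : Finset Bool), μ ((fun x => i.1 * x) '' A i) ≤ 1 := by
    rw [← mean_biUnion hadd, ← h1]
    · exact mean_mono h0 hadd (Set.subset_univ _)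
    · intro i _ j _ hij
      rw [Set.disjoint_left]
      rintro y ⟨x, hx, rfl⟩ ⟨z, hz, hzx⟩
      have e1 : f (x, i.2) = i.1 * x := by
        rw [hcf]; rw [show c (x, i.2) = i.1 from hx]
      have e2 : f (z, j.2) = j.1 * z := by
        rw [hcf]; rw [show c (z, j.2) = j.1 from hz]
      have e3 : (z, j.2) = (x, i.2) := by
        apply hfinj
        rw [e1, e2]
        exact hzx
      have e4 : z = x := congrArg Prod.fst e3
      have e5 : j.2 = i.2 := (Prod.ext_iff.1 e3).2
      apply hij
      refine Prod.ext ?_ e5.symm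
      rw [← show c (x, i.2) = i.1 from hx, ← show c (z, j.2) = j.1 from hz, e4, e5]
  rw [Finset.sum_product] at hsum
  have : ∀ u ∈ U, ∑ b : Bool, μ ((fun x => u * x) '' A (u, b)) = μ (A (u, true)) + μ (A (u, false)) := by
    intro u _
    rw [Fintype.sum_bool, hinv, hinv]
  rw [Finset.sum_congr rfl this, Finset.sum_add_distrib, hcover, hcover] at hsum
  linarith

/-- Følner's theorem. -/
theorem folner_of_mean {Q : Type*} [Group Q] (hm : HasMean Q) : Folner Q := by
  classical
  intro S ε hε
  by_contra hcon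
  have hbad : ∀ E : Finset Q, E.Nonempty → ∃ s ∈ S,
      ε * (E.card : ℝ) < ((E.filter (fun x => s * x ∉ E)).card : ℝ) := by
    intro E hE
    by_contra hno
    apply hcon
    refine ⟨E, hE, fun s hs => ⟨E.filter (fun x => s * x ∉ E), ?_, ?_⟩⟩
    · by_contra hlt
      exact hno ⟨s, hs, not_le.1 hlt⟩
    · intro x hx
      by_cases hsx : s * x ∈ E
      · exact Or.inl hsx
      · exact Or.inr (Finset.mem_filter.2 ⟨hx, hsx⟩)
  let T : Finset Q := insert 1 S
  have hstep : ∀ E : Finset Q, (1 + ε) * (E.card : ℝ) ≤ ((T * E).card : ℝ) := by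
    intro E
    rcases E.eq_empty_or_nonempty with rfl | hE
    · simp
    obtain ⟨s, hs, hlt⟩ := hbad E hE
    have h1 : E ∪ (E.filter (fun x => s * x ∉ E)).image (fun x => s * x) ⊆ T * E := by
      intro y hy
      rcases Finset.mem_union.1 hy with hy | hy
      · exact Finset.mem_mul.2 ⟨1, Finset.mem_insert_self _ _, y, hy, one_mul y⟩
      · obtain ⟨x, hx, rfl⟩ := Finset.mem_image.1 hy
        exact Finset.mem_mul.2 ⟨s, Finset.mem_insert_of_mem hs, x, (Finset.mem_filter.1 hx).1, rfl⟩
    have hd : Disjoint E ((E.filter (fun x => s * x ∉ E)).image (fun x => s * x)) := by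
      rw [Finset.disjoint_left]
      intro y hy hy2
      obtain ⟨x, hx, rfl⟩ := Finset.mem_image.1 hy2
      exact (Finset.mem_filter.1 hx).2 hy
    have h2 := Finset.card_le_card h1
    rw [Finset.card_union_of_disjoint hd,
      Finset.card_image_of_injective _ (mul_right_injective s)] at h2
    have h4 : (E.card : ℝ) + ((E.filter (fun x => s * x ∉ E)).card : ℝ) ≤ ((T * E).card : ℝ) := by
      exact_mod_cast h2
    nlinarith
  have hpow : ∀ (k : ℕ) (E : Finset Q), (1 + ε) ^ k * (E.card : ℝ) ≤ ((T ^ k * E).card : ℝ) := by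
    intro k
    induction k with
    | zero => intro E; simp
    | succ k ih =>
      intro E
      have h1 := ih (T * E)
      have h2 := hstep E
      rw [← mul_assoc, ← pow_succ] at h1
      have h3 : (1 + ε) ^ k * ((1 + ε) * (E.card : ℝ)) ≤ (1 + ε) ^ k * ((T * E).card : ℝ) :=
        mul_le_mul_of_nonneg_left h2 (by positivity)
      calc (1 + ε) ^ (k + 1) * (E.card : ℝ) = (1 + ε) ^ k * ((1 + ε) * (E.card : ℝ)) := by ring
        _ ≤ _ := h3
        _ ≤ _ := h1
  obtain ⟨k, hk⟩ := pow_unbounded_of_one_lt (2 : ℝ) (show (1 : ℝ) < 1 + ε by linarith)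
  refine no_doubling hm (T ^ k) (fun E => ?_)
  have h1 := hpow k E
  have h2 : (2 : ℝ) * (E.card : ℝ) ≤ ((T ^ k * E).card : ℝ) := by
    refine le_trans ?_ h1
    exact mul_le_mul_of_nonneg_right hk.le (Nat.cast_nonneg _)
  exact_mod_cast h2

end Pool.Agent.Helper11.PS
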