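import Pool.Agent.Helper30.WB.RB

/-!
# Partial conjugations of weakly branch subgroups (MP_08df5f_al, project WB)

`Q` residually finite, `i : Γ → Q` injective, `Γ` weakly branch, `H ≤ Γ` of finite index, `σ : H → Γ`
given by the conjugation with an element `t` of `Q`.  Then the group induced by `σ H` on every level
of the tree has index at most `[Γ : H]` in the group induced by `Γ`.
-/

set_option autoImplicit false

namespace Pool.Agent.Helper11.PS

open Pool.Agent.Helper62.WB Pool.Agent.Helper30.WB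

/-- For every level there is a nontrivial element such that every normal subgroup of finite index of
`Q` which does not contain it meets `Γ` in a subgroup of the stabiliser of the level. -/
theorem exists_H {T : RTree} {Γ Q : Type} [Group Γ] [Group Q] {a : TAct T Γ}
    (ha : a.WeaklyBranch) (hRF : RF Q) (i : Γ →* Q) (hi : Function.Injective i) (n : ℕ) :
    ∃ H : Subgroup Q, H.Normal ∧ H.FiniteIndex ∧ ∀ x : Γ, i x ∈ H → a.act n x = 1 := by
  obtain ⟨root, hroot⟩ := T.root
  obtain ⟨x0, -⟩ := exists_bd T 0 root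
  set v := x0.1 n with hv
  obtain ⟨c, hc, d, hd, hcd⟩ := noncomm ha n v
  have hne : i c * i d * (i c)⁻¹ * (i d)⁻¹ ≠ 1 := by
    intro h
    apply hcd
    apply hi
    rw [map_mul, map_mul]
    rw [mul_inv_eq_one] at h
    exact (mul_inv_eq_iff_eq_mul.mp h)
  obtain ⟨H, hHn, hHf, hH⟩ := hRF _ hne
  refine ⟨H, hHn, hHf, ?_⟩
  -- elements with image in `H` fix `v`
  have fixv : ∀ x : Γ, i x ∈ H → a.act n x v = v := by
    intro x hx
    by_contra hxv
    have h1 : x * c * x⁻¹ ∈ a.Rist (a.act n x v) := Rist_conj hc x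
    have h2 := rist_comm ha hxv h1 hd
    apply hH
    have h3 := congrArg i h2
    simp only [map_mul, map_inv] at h3
    have hx1 : ((i x : Q) : Q ⧸ H) = 1 := (QuotientGroup.eq_one_iff _).2 hx
    have h4 := congrArg (fun q : Q => (q : Q ⧸ H)) h3
    simp only [QuotientGroup.mk_mul, QuotientGroup.mk_inv, hx1, one_mul, inv_one, mul_one] at h4
    rw [← QuotientGroup.eq_one_iff]
    simp only [QuotientGroup.mk_mul, QuotientGroup.mk_inv]
    rw [h4]
    group
  intro x hx
  ext w
  obtain ⟨k, rfl⟩ := ha.trans n v w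
  have h1 : i (k⁻¹ * x * k) ∈ H := by
    rw [map_mul, map_mul, map_inv]
    have := hHn.conj_mem _ hx (i k)⁻¹
    rwa [inv_inv] at this
  have h2 := fixv _ h1
  rw [map_mul, map_mul, map_inv, Equiv.Perm.mul_apply, Equiv.Perm.mul_apply,
    Equiv.Perm.inv_eq_iff_eq] at h2
  rw [h2]
  rfl

/-- Partial conjugations: the group induced by `σ H` on level `n` has index at most `[Γ : H]` in the
group induced by `Γ`. -/
theorem relIndex_le {T : RTree} {Γ Q : Type} [Group Γ] [Group Q] {a : TAct T Γ}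
    (ha : a.WeaklyBranch) (hRF : RF Q) (i : Γ →* Q) (hi : Function.Injective i)
    (H : Subgroup Γ) [hH : H.FiniteIndex] (σ : H →* Γ) (t : Q)
    (ht : ∀ h : H, t * i (h : Γ) * t⁻¹ = i (σ h)) (n : ℕ) :
    ((a.act n).comp σ).range.relIndex (a.act n).range ≤ H.index := by
  obtain ⟨K, hKn, hKf, hK⟩ := exists_H ha hRF i hi n
  have : Finite (Q ⧸ K) := inferInstance
  let φ : Γ →* Q ⧸ K := (QuotientGroup.mk' K).comp i
  have hker : φ.ker ≤ (a.act n).ker := by
    intro x hx
    rw [MonoidHom.mem_ker] at hx ⊢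
    exact hK x ((QuotientGroup.eq_one_iff _).1 hx)
  let A : Subgroup (Q ⧸ K) := H.map φ
  let B : Subgroup (Q ⧸ K) := (φ.comp σ).range
  have hAP : A ≤ φ.range := by
    rintro _ ⟨h, _, rfl⟩
    exact ⟨h, rfl⟩
  have hBP : B ≤ φ.range := by
    rintro _ ⟨h, rfl⟩
    exact ⟨σ h, rfl⟩
  have hval : ∀ h : H, φ (σ h) = (t : Q ⧸ K) * φ (h : Γ) * (t : Q ⧸ K)⁻¹ := by
    intro h
    have := congrArg (fun q : Q => (q : Q ⧸ K)) (ht h)
    simpa [φ] using this.symm
  have hcard : Nat.card A = Nat.card B := by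
    refine Nat.card_congr ?_
    refine Equiv.ofBijective (fun u => ⟨(t : Q ⧸ K) * u.1 * (t : Q ⧸ K)⁻¹, ?_⟩) ⟨?_, ?_⟩
    · obtain ⟨_, h, hh, rfl⟩ := u
      exact ⟨⟨h, hh⟩, hval ⟨h, hh⟩⟩
    · intro u v huv
      have h1 : (t : Q ⧸ K) * u.1 * (t : Q ⧸ K)⁻¹ = (t : Q ⧸ K) * v.1 * (t : Q ⧸ K)⁻¹ :=
        congrArg Subtype.val huv
      exact Subtype.ext (mul_left_cancel (mul_right_cancel h1))
    · rintro ⟨_, h, rfl⟩
      exact ⟨⟨φ h, (h : Γ), h.2, rfl⟩, Subtype.ext (hval h).symm⟩
  have hidx : (B.comap φ).index = (A.comap φ).index := by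
    rw [Subgroup.index_comap, Subgroup.index_comap]
    have hA := Subgroup.card_mul_index (A.subgroupOf φ.range)
    have hB := Subgroup.card_mul_index (B.subgroupOf φ.range)
    have hA' : Nat.card (A.subgroupOf φ.range) = Nat.card A :=
      Nat.card_congr (Subgroup.subgroupOfEquivOfLe hAP).toEquiv
    have hB' : Nat.card (B.subgroupOf φ.range) = Nat.card B :=
      Nat.card_congr (Subgroup.subgroupOfEquivOfLe hBP).toEquiv
    rw [hA'] at hA
    rw [hB', ← hcard, ← hA] at hB
    exact Nat.eq_of_mul_eq_mul_left Nat.card_pos hB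
  have hdvd : (A.comap φ).index ∣ H.index :=
    Subgroup.index_dvd_of_le (fun h hh => ⟨h, hh, rfl⟩)
  have hle : (A.comap φ).index ≤ H.index :=
    Nat.le_of_dvd (Nat.pos_of_ne_zero hH.index_ne_zero) hdvd
  have hpos : (B.comap φ).index ≠ 0 := by
    rw [hidx]
    intro h0
    rw [h0, zero_dvd_iff] at hdvd
    exact hH.index_ne_zero hdvd
  have h1 : ((a.act n).comp σ).range.relIndex (a.act n).range =
      ((((a.act n).comp σ).range).comap (a.act n)).index := (Subgroup.index_comap _ _).symm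
  rw [h1]
  refine le_trans ?_ (hidx.le.trans hle)
  refine Nat.le_of_dvd (Nat.pos_of_ne_zero hpos) (Subgroup.index_dvd_of_le ?_)
  rintro x ⟨h, hh⟩
  have h2 : x * (σ h)⁻¹ ∈ φ.ker := by
    rw [MonoidHom.mem_ker, map_mul, map_inv, mul_inv_eq_one]
    exact hh.symm
  have h3 := hker h2
  rw [MonoidHom.mem_ker, map_mul, map_inv, mul_inv_eq_one] at h3
  exact ⟨h, h3.symm⟩

end Pool.Agent.Helper11.PS
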