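import Pool.Agent.Helper94.WB.SA

/-!
# Very flexible stability (MP_08df5f_al, project WB)

`VStable`: the definition of `Stable` (helper62), except that the exact solution may act on a larger
finite set.  If a group with Foelner sets is very flexibly stable in permutations, its quotients
by finitely generated normal subgroups are residually finite.
-/

set_option autoImplicit false

namespace Pool.Agent.Helper11.PS

open scoped Classical

open Pool.Agent.Helper62.WB Pool.Agent.Helper94.WB

/-- `G` is finitely generated and very flexibly stable in permutations: there is a finite generating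
tuple (a surjection `π` of a free group of finite rank onto `G`) such that for every `ε > 0` there are a
finite set `R₀` of relations and `δ > 0` such that for every `δ`-almost solution `p` of `R₀` in the
permutations of `Fin n` there are `M ≥ n` and a tuple `q` of permutations of `Fin M` which satisfies
all the relations of `G` and agrees with `p` at all but `ε n` points of `Fin n`.  (`Stable` is the
same with `M = n`.) -/
def VStable (G : Type) [Group G] : Prop :=
  ∃ (k : ℕ) (π : FreeGroup (Fin k) →* G), Function.Surjective π ∧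
    ∀ ε : ℝ, 0 < ε → ∃ R₀ : Finset (FreeGroup (Fin k)), (∀ r ∈ R₀, π r = 1) ∧
      ∃ δ : ℝ, 0 < δ ∧ ∀ (n : ℕ), 1 ≤ n → ∀ p : Fin k → Equiv.Perm (Fin n),
        (∀ r ∈ R₀, dH (FreeGroup.lift p r) 1 < δ) →
        ∃ (M : ℕ) (h : n ≤ M) (q : Fin k → Equiv.Perm (Fin M)),
          (∀ r, π r = 1 → FreeGroup.lift q r = 1) ∧
          ∀ s, ((Finset.univ.filter (fun i : Fin n =>
            q s (Fin.castLE h i) ≠ Fin.castLE h (p s i))).card : ℝ) / n < ε

theorem vstable_of_stable {G : Type} [Group G] (hG : Stable G) : VStable G := by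
  obtain ⟨k, π, hπ, h⟩ := hG
  refine ⟨k, π, hπ, fun ε hε => ?_⟩
  obtain ⟨R₀, hR₀, δ, hδ, h'⟩ := h ε hε
  refine ⟨R₀, hR₀, δ, hδ, fun n hn p hp => ?_⟩
  obtain ⟨q, hq, hq'⟩ := h' n hn p hp
  refine ⟨n, le_rfl, q, hq, fun s => ?_⟩
  refine lt_of_le_of_lt (le_of_eq ?_) (hq' s)
  unfold dH
  congr 3
  ext i
  simp [eq_comm]

/-- the number of points where the word `v` acts differently, divided by `n` -/
noncomputable def vd {k n M : ℕ} (h : n ≤ M) (p : Fin k → Equiv.Perm (Fin n))
    (q : Fin k → Equiv.Perm (Fin M)) (v : FreeGroup (Fin k)) : ℝ :=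
  ((Finset.univ.filter (fun a : Fin n =>
    FreeGroup.lift q v (Fin.castLE h a) ≠ Fin.castLE h (FreeGroup.lift p v a))).card : ℝ) / n

theorem vd_one {k n M : ℕ} (h : n ≤ M) (p : Fin k → Equiv.Perm (Fin n))
    (q : Fin k → Equiv.Perm (Fin M)) : vd h p q 1 ≤ 0 := by
  unfold vd
  simp

theorem vd_inv {k n M : ℕ} (h : n ≤ M) (p : Fin k → Equiv.Perm (Fin n))
    (q : Fin k → Equiv.Perm (Fin M)) (s : FreeGroup (Fin k)) :
    vd h p q s⁻¹ ≤ vd h p q s := by
  unfold vd
  apply div_le_div_of_nonneg_right _ (Nat.cast_nonneg _)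
  have : (Finset.univ.filter (fun a : Fin n =>
      FreeGroup.lift q s⁻¹ (Fin.castLE h a) ≠ Fin.castLE h (FreeGroup.lift p s⁻¹ a))).card ≤
      (Finset.univ.filter (fun a : Fin n =>
      FreeGroup.lift q s (Fin.castLE h a) ≠ Fin.castLE h (FreeGroup.lift p s a))).card := by
    refine Finset.card_le_card_of_injOn (fun a => (FreeGroup.lift p s)⁻¹ a) ?_ ?_
    · intro a ha
      rw [Finset.mem_coe, Finset.mem_filter] at ha ⊢
      refine ⟨Finset.mem_univ _, fun hcon => ha.2 ?_⟩
      rw [map_inv, map_inv, Equiv.Perm.inv_eq_iff_eq, hcon]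
      simp
    · intro a _ b _ hab
      exact (FreeGroup.lift p s)⁻¹.injective hab
  exact_mod_cast this

theorem vd_mul {k n M : ℕ} (h : n ≤ M) (p : Fin k → Equiv.Perm (Fin n))
    (q : Fin k → Equiv.Perm (Fin M)) (v w : FreeGroup (Fin k)) :
    vd h p q (v * w) ≤ vd h p q v + vd h p q w := by
  unfold vd
  rw [← add_div]
  apply div_le_div_of_nonneg_right _ (Nat.cast_nonneg _)
  set A := Finset.univ.filter (fun a : Fin n =>
    FreeGroup.lift q v (Fin.castLE h a) ≠ Fin.castLE h (FreeGroup.lift p v a)) with hA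
  set B := Finset.univ.filter (fun a : Fin n =>
    FreeGroup.lift q w (Fin.castLE h a) ≠ Fin.castLE h (FreeGroup.lift p w a)) with hB
  have h1 : (Finset.univ.filter (fun a : Fin n => FreeGroup.lift q (v * w) (Fin.castLE h a) ≠
      Fin.castLE h (FreeGroup.lift p (v * w) a))) ⊆
      A.image (fun a => (FreeGroup.lift p w)⁻¹ a) ∪ B := by
    intro a ha
    rw [Finset.mem_filter] at ha
    rw [Finset.mem_union, Finset.mem_image]
    by_cases hb : a ∈ B
    · right
      exact hb
    · left
      refine ⟨FreeGroup.lift p w a, ?_, by simp⟩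
      rw [hB, Finset.mem_filter] at hb
      push Not at hb
      have h2 := hb (Finset.mem_univ _)
      rw [hA, Finset.mem_filter]
      refine ⟨Finset.mem_univ _, fun h3 => ha.2 ?_⟩
      rw [map_mul, map_mul, Equiv.Perm.mul_apply, Equiv.Perm.mul_apply, h2, h3]
  have h2 := (Finset.card_le_card h1).trans (Finset.card_union_le _ _)
  have h3 : (A.image (fun a => (FreeGroup.lift p w)⁻¹ a)).card ≤ A.card := Finset.card_image_le
  have h4 := h2.trans (Nat.add_le_add_right h3 _)
  exact_mod_cast h4

theorem mainV {G Q : Type} [Group G] [Group Q] (hF : Foel G) (hS : VStable G) (mk : G →* Q)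
    (hmk : Function.Surjective mk) (N : Subgroup G) (hNN : N.Normal) (hNk : mk.ker = N)
    (hN : N.FG) : RF Q := by
  intro g hg
  obtain ⟨k, π, hπ, hst⟩ := hS
  obtain ⟨S₀, hS₀⟩ := hN
  set ρ : FreeGroup (Fin k) →* Q := mk.comp π with hρ
  obtain ⟨g', hg'⟩ := hmk g
  obtain ⟨w, hw⟩ := hπ g'
  have hρw : ρ w = g := by
    rw [hρ, MonoidHom.comp_apply, hw]
    exact hg'
  choose u hu using hπ
  choose l hl using fun v : FreeGroup (Fin k) => len v
  -- the constants
  set L : ℝ := ∑ x ∈ S₀, (l (u x) : ℝ) + l w + 1 with hL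
  have hL0 : 0 < L := by
    have h1 : (0 : ℝ) ≤ ∑ x ∈ S₀, (l (u x) : ℝ) := Finset.sum_nonneg fun _ _ => Nat.cast_nonneg _
    have h2 : (0 : ℝ) ≤ l w := Nat.cast_nonneg _
    linarith
  set ε : ℝ := 1 / (4 * L) with hε
  have hε0 : 0 < ε := by positivity
  obtain ⟨R₀, hR₀, δ, hδ, hst'⟩ := hst ε hε0
  set M : ℝ := ∑ r ∈ R₀, (l r : ℝ) + 1 with hM
  have hM0 : 0 < M := by
    have h1 : (0 : ℝ) ≤ ∑ r ∈ R₀, (l r : ℝ) := Finset.sum_nonneg fun _ _ => Nat.cast_nonneg _
    linarith
  set η : ℝ := min ε (δ / (2 * M)) with hη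
  have hη0 : 0 < η := lt_min hε0 (by positivity)
  have hηε : η ≤ ε := min_le_left _ _
  have hηδ : η ≤ δ / (2 * M) := min_le_right _ _
  obtain ⟨X, hX, hXS⟩ := almost hF mk (Finset.univ.image (fun s => π (FreeGroup.of s)) ∪
    Finset.univ.image (fun s => (π (FreeGroup.of s))⁻¹)) η hη0
  obtain ⟨n, loc, p, hn, hloc, hp1, hp2⟩ := perms ρ X η hX
    (fun s => hXS (π (FreeGroup.of s)) (Finset.mem_union_left _
      (Finset.mem_image_of_mem _ (Finset.mem_univ s))))
    (fun s => by
      have h1 := hXS (π (FreeGroup.of s))⁻¹ (Finset.mem_union_right _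
        (Finset.mem_image_of_mem (fun s => (π (FreeGroup.of s))⁻¹) (Finset.mem_univ s)))
      have h2 : ρ (FreeGroup.of s)⁻¹ = mk (π (FreeGroup.of s))⁻¹ := by
        rw [hρ, MonoidHom.comp_apply, map_inv]
      rw [h2]
      exact h1)
  have hn0 : (0 : ℝ) < n := by exact_mod_cast hn
  have hbd : ∀ v, bd ρ loc p v ≤ l v * η := by
    intro v
    refine hl v (bd ρ loc p) η hη0.le (bd_one ρ loc p) (fun s => ?_) (fun s => ?_)
      (bd_mul ρ loc p)
    · unfold bd
      rw [div_le_iff₀ hn0, FreeGroup.lift_apply_of]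
      exact hp1 s
    · unfold bd
      rw [div_le_iff₀ hn0, map_inv, FreeGroup.lift_apply_of]
      exact hp2 s
  have hone : ∀ v, ρ v = 1 → dH (FreeGroup.lift p v) 1 ≤ l v * η := by
    intro v hv
    refine le_trans ?_ (hbd v)
    unfold dH bd
    apply div_le_div_of_nonneg_right _ hn0.le
    have : (Finset.univ.filter (fun i => FreeGroup.lift p v i ≠ (1 : Equiv.Perm (Fin n)) i)) ⊆
        (Finset.univ.filter (fun a => loc (FreeGroup.lift p v a) ≠
          (ρ v * (loc a).1, (loc a).2))) := by
      intro a ha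
      rw [Finset.mem_filter] at ha ⊢
      refine ⟨Finset.mem_univ _, fun h => ha.2 ?_⟩
      apply hloc
      rw [h, hv, one_mul]
      rfl
    exact_mod_cast Finset.card_le_card this
  obtain ⟨m, hnm, q, hq1, hq2⟩ := hst' n hn p (by
    intro r hr
    have h1 : ρ r = 1 := by
      rw [hρ, MonoidHom.comp_apply, hR₀ r hr, map_one]
    refine (hone r h1).trans_lt ?_
    have h2 : (l r : ℝ) ≤ M := by
      have := Finset.single_le_sum (f := fun r => (l r : ℝ)) (fun _ _ => Nat.cast_nonneg _) hr
      linarith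
    calc (l r : ℝ) * η ≤ M * (δ / (2 * M)) := mul_le_mul h2 hηδ hη0.le hM0.le
      _ = δ / 2 := by field_simp
      _ < δ := by linarith)
  have hpq : ∀ v, vd hnm p q v ≤ l v * ε := by
    intro v
    have hof : ∀ s, vd hnm p q (FreeGroup.of s) ≤ ε := by
      intro s
      unfold vd
      rw [FreeGroup.lift_apply_of, FreeGroup.lift_apply_of]
      exact (hq2 s).le
    exact hl v (vd hnm p q) ε hε0.le (vd_one _ _ _) hof
      (fun s => (vd_inv _ _ _ _).trans (hof s)) (vd_mul _ _ _)
  -- the homomorphism of `G`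
  have hker : π.ker ≤ (FreeGroup.lift q).ker := by
    intro r hr
    rw [MonoidHom.mem_ker] at hr ⊢
    exact hq1 r hr
  have hπs : Function.Surjective π := fun x => ⟨u x, hu x⟩
  set φ : G →* Equiv.Perm (Fin m) :=
    π.liftOfSurjective hπs ⟨FreeGroup.lift q, hker⟩ with hφ
  have hφπ : ∀ v, φ (π v) = FreeGroup.lift q v := by
    intro v
    exact MonoidHom.liftOfRightInverse_comp_apply _ _ _ ⟨FreeGroup.lift q, hker⟩ v
  -- a point which is fixed by the generators of `N` and moved by `w`
  have hpt : ∃ a : Fin m, (∀ x ∈ S₀, φ x a = a) ∧ FreeGroup.lift q w a ≠ a := by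
    by_contra hcon
    push Not at hcon
    have h1 : (Finset.univ : Finset (Fin n)) ⊆
        (S₀.biUnion (fun x =>
          Finset.univ.filter (fun a : Fin n => FreeGroup.lift q (u x) (Fin.castLE hnm a) ≠
            Fin.castLE hnm (FreeGroup.lift p (u x) a)) ∪
          Finset.univ.filter (fun a : Fin n => FreeGroup.lift p (u x) a ≠
            (1 : Equiv.Perm (Fin n)) a))) ∪
        (Finset.univ.filter (fun a : Fin n => FreeGroup.lift q w (Fin.castLE hnm a) ≠
          Fin.castLE hnm (FreeGroup.lift p w a)) ∪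
        Finset.univ.filter (fun a : Fin n => loc (FreeGroup.lift p w a) ≠
          (ρ w * (loc a).1, (loc a).2))) := by
      intro a _
      rw [Finset.mem_union, Finset.mem_union, Finset.mem_biUnion]
      by_cases h : ∀ x ∈ S₀, φ x (Fin.castLE hnm a) = Fin.castLE hnm a
      · right
        have h2 := hcon _ h
        by_cases h3 : FreeGroup.lift q w (Fin.castLE hnm a) =
            Fin.castLE hnm (FreeGroup.lift p w a)
        · right
          rw [Finset.mem_filter]
          refine ⟨Finset.mem_univ _, fun h4 => ?_⟩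
          rw [h2] at h3
          have h6 : a = FreeGroup.lift p w a := Fin.castLE_injective hnm h3
          rw [← h6, hρw] at h4
          have h5 : (loc a).1 = g * (loc a).1 := congrArg Prod.fst h4
          exact hg (mul_eq_right.1 h5.symm)
        · left
          rw [Finset.mem_filter]
          exact ⟨Finset.mem_univ _, h3⟩
      · left
        push Not at h
        obtain ⟨x, hx, hxa⟩ := h
        refine ⟨x, hx, ?_⟩
        rw [Finset.mem_union, Finset.mem_filter, Finset.mem_filter]
        by_contra hno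
        push Not at hno
        have h2 := hno.1 (Finset.mem_univ _)
        have h3 := hno.2 (Finset.mem_univ _)
        apply hxa
        have h4 : φ x = FreeGroup.lift q (u x) := by
          rw [← hφπ, hu]
        rw [h4, h2, h3]
        rfl
    have h2 : (n : ℝ) ≤ (∑ x ∈ S₀, (((Finset.univ.filter (fun a : Fin n =>
          FreeGroup.lift q (u x) (Fin.castLE hnm a) ≠
            Fin.castLE hnm (FreeGroup.lift p (u x) a))).card : ℝ) +
          ((Finset.univ.filter (fun a : Fin n => FreeGroup.lift p (u x) a ≠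
            (1 : Equiv.Perm (Fin n)) a)).card : ℝ))) +
        (((Finset.univ.filter (fun a : Fin n => FreeGroup.lift q w (Fin.castLE hnm a) ≠
          Fin.castLE hnm (FreeGroup.lift p w a))).card : ℝ) +
        ((Finset.univ.filter (fun a : Fin n => loc (FreeGroup.lift p w a) ≠
          (ρ w * (loc a).1, (loc a).2))).card : ℝ)) := by
      have h3 := Finset.card_le_card h1
      rw [Finset.card_univ, Fintype.card_fin] at h3
      have h4 := h3.trans (Finset.card_union_le _ _)
      have h5 := h4.trans (Nat.add_le_add (Finset.card_biUnion_le.trans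
        (Finset.sum_le_sum fun x _ => Finset.card_union_le _ _)) (Finset.card_union_le _ _))
      exact_mod_cast h5
    have hq' : ∀ v, ((Finset.univ.filter (fun a : Fin n =>
        FreeGroup.lift q v (Fin.castLE hnm a) ≠ Fin.castLE hnm (FreeGroup.lift p v a))).card : ℝ)
        ≤ (l v * ε) * n := by
      intro v
      rw [← div_le_iff₀ hn0]
      exact hpq v
    have h3 : ∀ x ∈ S₀, (((Finset.univ.filter (fun a : Fin n =>
          FreeGroup.lift q (u x) (Fin.castLE hnm a) ≠
            Fin.castLE hnm (FreeGroup.lift p (u x) a))).card : ℝ) +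
          ((Finset.univ.filter (fun a : Fin n => FreeGroup.lift p (u x) a ≠
            (1 : Equiv.Perm (Fin n)) a)).card : ℝ)) ≤ (l (u x) * (2 * ε)) * n := by
      intro x hx
      have h4 : ρ (u x) = 1 := by
        rw [hρ, MonoidHom.comp_apply, hu]
        have : x ∈ N := by
          rw [← hS₀]
          exact Subgroup.subset_closure hx
        rw [← hNk] at this
        exact this
      have h5 : ((Finset.univ.filter (fun a : Fin n => FreeGroup.lift p (u x) a ≠
            (1 : Equiv.Perm (Fin n)) a)).card : ℝ) ≤ (l (u x) * η) * n := by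
        rw [← div_le_iff₀ hn0]
        exact hone (u x) h4
      have h6 : (l (u x) : ℝ) * η ≤ l (u x) * ε := mul_le_mul_of_nonneg_left hηε
        (Nat.cast_nonneg _)
      have h7 : (l (u x) * η) * (n : ℝ) ≤ (l (u x) * ε) * n :=
        mul_le_mul_of_nonneg_right h6 hn0.le
      have h8 := hq' (u x)
      linarith
    have h4 := hq' w
    have h5 : ((Finset.univ.filter (fun a : Fin n => loc (FreeGroup.lift p w a) ≠
          (ρ w * (loc a).1, (loc a).2))).card : ℝ) ≤ (l w * ε) * n := by
      rw [← div_le_iff₀ hn0]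
      have := (hbd w).trans (mul_le_mul_of_nonneg_left hηε (Nat.cast_nonneg _))
      unfold bd at this
      exact this
    have h6 := Finset.sum_le_sum h3
    rw [← Finset.sum_mul, ← Finset.sum_mul] at h6
    have h7 : (n : ℝ) ≤ (L * (2 * ε)) * n := by
      have h8 : (0 : ℝ) ≤ 2 * ε * n := by positivity
      have : L * (2 * ε) * n = (∑ x ∈ S₀, (l (u x) : ℝ)) * (2 * ε) * n + (l w * ε) * n +
          (l w * ε) * n + 2 * ε * n := by
        rw [hL]
        ring
      linarith
    have h8 : L * (2 * ε) = 1 / 2 := by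
      rw [hε]
      field_simp
      norm_num
    rw [h8] at h7
    linarith
  obtain ⟨a₀, ha₀, ha₁⟩ := hpt
  -- the subgroup of `G`
  have hfix : ∀ x ∈ N, φ x a₀ = a₀ := by
    intro x hx
    rw [← hS₀] at hx
    induction hx using Subgroup.closure_induction with
    | mem x hx => exact ha₀ x hx
    | one => simp
    | mul x y _ _ h1 h2 => rw [map_mul, Equiv.Perm.mul_apply, h2, h1]
    | inv x _ h1 =>
      rw [map_inv, Equiv.Perm.inv_eq_iff_eq]
      exact h1.symm
  let K : Subgroup G :=
    { carrier := {x | ∀ a : Fin m, (∀ y ∈ N, φ y a = a) → φ x a = a}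
      mul_mem' := by
        intro x y hx hy a ha
        rw [map_mul, Equiv.Perm.mul_apply, hy a ha, hx a ha]
      one_mem' := by
        intro a _
        simp
      inv_mem' := by
        intro x hx a ha
        rw [map_inv, Equiv.Perm.inv_eq_iff_eq]
        exact (hx a ha).symm }
  have hKN : K.Normal := by
    constructor
    intro x hx y a ha
    have h1 : ∀ z ∈ N, φ z (φ y⁻¹ a) = φ y⁻¹ a := by
      intro z hz
      have h2 : φ (y * z * y⁻¹) a = a := ha _ (hNN.conj_mem z hz y)
      rw [map_mul, map_mul, Equiv.Perm.mul_apply, Equiv.Perm.mul_apply] at h2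
      have h3 := congrArg (φ y⁻¹) h2
      rw [← Equiv.Perm.mul_apply (φ y⁻¹) (φ y), ← map_mul, inv_mul_cancel, map_one,
        Equiv.Perm.one_apply] at h3
      exact h3
    have h2 := hx _ h1
    rw [map_mul, map_mul, Equiv.Perm.mul_apply, Equiv.Perm.mul_apply, h2,
      ← Equiv.Perm.mul_apply (φ y) (φ y⁻¹), ← map_mul, mul_inv_cancel, map_one,
      Equiv.Perm.one_apply]
  have hKle : φ.ker ≤ K := by
    intro x hx a _
    rw [MonoidHom.mem_ker] at hx
    rw [hx]
    rfl
  have hKF : K.FiniteIndex := Subgroup.finiteIndex_of_le hKle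
  have hNK : N ≤ K := fun x hx a ha => ha x hx
  refine ⟨K.map mk, hKN.map mk hmk, ?_, ?_⟩
  · constructor
    intro h0
    have h1 := Subgroup.index_map_dvd K hmk
    rw [h0, zero_dvd_iff] at h1
    exact hKF.index_ne_zero h1
  · intro hgK
    obtain ⟨x, hxK, hx⟩ := hgK
    have h1 : mk x = mk (π w) := by
      rw [hx, ← hρw]
      rfl
    have h2 : x⁻¹ * π w ∈ N := by
      rw [← hNk, MonoidHom.mem_ker, map_mul, map_inv, h1, inv_mul_cancel]
    have h3 : π w ∈ K := by
      have h4 := K.mul_mem hxK (hNK h2)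
      rwa [mul_inv_cancel_left] at h4
    have h4 := h3 a₀ hfix
    rw [hφπ] at h4
    exact ha₁ h4

/-- very flexible version of packet `SA` -/
theorem sav (G : Type) [Group G] (hF : Foel G) (hS : VStable G) (N : Subgroup G) [hN : N.Normal]
    (hNf : N.FG) : RF (G ⧸ N) :=
  mainV hF hS (QuotientGroup.mk' N) (QuotientGroup.mk'_surjective N) N hN
    (QuotientGroup.ker_mk' N) hNf

end Pool.Agent.Helper11.PS
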