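import Pool.Agent.Helper62.WB.Final
import Pool.Agent.Helper11.PS.SAV
import Pool.Agent.Helper11.PS.RBV

/-!
# Weakly branch groups in amenable groups stable in permutations (MP_08df5f_al, project WB)

The merged form (helper62, helper11) of the obstruction.
-/

set_option autoImplicit false

namespace Pool.Agent.Helper11.PS

open Pool.Agent.Helper62.WB

/-- residual finiteness of the quotients by finitely generated normal subgroups -/
theorem rf_quot {G : Type} [Group G] (hG : Amen G) (hS : VStable G ∨ StableS G)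
    (N : Subgroup G) [N.Normal] (hN : N.FG) : RF (G ⧸ N) := by
  have hV : VStable G := by
    rcases hS with hS | hS
    · exact hS
    · exact vstable_of_stable (qf2 G hS).1
  exact sav G (Pool.Agent.Helper41.WB.fo G hG) hV N hN

theorem mainW (G : Type) [Group G] (hG : Amen G) (hS : VStable G ∨ StableS G)
    (N : Subgroup G) [N.Normal] (hN : N.FG) (T : RTree) (Γ : Type) [Group Γ] (a : TAct T Γ)
    (ha : a.WeaklyBranch) :
    (∀ i : Γ →* G ⧸ N, Function.Injective i → ∀ (H : Subgroup Γ) [H.FiniteIndex] (σ : H →* Γ)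
      (t : G ⧸ N), (∀ h : H, t * i (h : Γ) * t⁻¹ = i (σ h)) →
      ∀ n, ((a.act n).comp σ).range.relIndex (a.act n).range ≤ H.index) ∧
    (∀ i : Γ →* G ⧸ N, Function.Injective i → ∀ (σ : Γ →* Γ) (t : G ⧸ N),
      (∀ g : Γ, t * i g * t⁻¹ = i (σ g)) → a.Dense σ) ∧
    (∀ (σ : Γ →* Γ) (hσ : Function.Injective σ), Nonempty (G ⧸ N ≃* Asc σ hσ) →
      a.Dense σ ∧ (Group.FG Γ → FP G → ∃ M : Subgroup G, ∃ _ : M.Normal, N ≤ M ∧
        FP (G ⧸ M) ∧ IsWB (G ⧸ M))) := by
  have hRF := rf_quot hG hS N hN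
  have hRB : StmtRB := Pool.Agent.Helper30.WB.rb
  refine ⟨fun i hi H _ σ t ht n => relIndex_le ha hRF i hi H σ t ht n,
    fun i hi σ t ht => hRB.2 T Γ (G ⧸ N) a ha hRF i hi σ t ht, fun σ hσ he => ?_⟩
  obtain ⟨e⟩ := he
  have h1 : a.Dense σ := dense_of_RF hRB ha (RF_of_equiv e hRF)
  refine ⟨h1, fun hfg hFP => ?_⟩
  obtain ⟨-, h2⟩ := main.2 T Γ a ha hfg σ hσ
  obtain ⟨C, hC, -, hC1, -, hC2⟩ := h2 h1
  exact quotient_of_structure hFP N hN e ⟨C, hC, hC1, hC2⟩

end Pool.Agent.Helper11.PS
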