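import Pool.Agent.Helper11.PS.Folner

/-!
# Amenable groups which are very flexibly stable in permutations are residually finite
-/

set_option autoImplicit false

open scoped Pointwise

namespace Pool.Agent.Helper11.PS

/-- Very flexible stability in permutations, for the generating tuple given by `f`. -/
def VFStable {k : ℕ} {Γ : Type*} [Group Γ] (f : FreeGroup (Fin k) →* Γ) : Prop :=
  ∀ ε : ℝ, 0 < ε → ∃ (R : Finset (FreeGroup (Fin k))) (δ : ℝ), (∀ r ∈ R, f r = 1) ∧ 0 < δ ∧
    ∀ (n : ℕ) (p : Fin k → Equiv.Perm (Fin n)),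
      (∀ r ∈ R, (Nat.card {i // FreeGroup.lift p r i ≠ i} : ℝ) < δ * n) →
      ∃ (N : ℕ) (h : n ≤ N) (q : Fin k → Equiv.Perm (Fin N)),
        (∀ w, f w = 1 → FreeGroup.lift q w = 1) ∧
        ∀ s, (Nat.card {i : Fin n // q s (Fin.castLE h i) ≠ Fin.castLE h (p s i)} : ℝ) < ε * n

/-- The value of one letter. -/
def ltr {k : ℕ} {H : Type*} [Group H] (p : Fin k → H) (x : Fin k × Bool) : H :=
  cond x.2 (p x.1) (p x.1)⁻¹

/-- The value of a word. -/
def val {k : ℕ} {H : Type*} [Group H] (p : Fin k → H) (L : List (Fin k × Bool)) : H :=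
  (L.map (ltr p)).prod

theorem val_cons {k : ℕ} {H : Type*} [Group H] (p : Fin k → H) (x : Fin k × Bool)
    (L : List (Fin k × Bool)) : val p (x :: L) = ltr p x * val p L := by
  simp [val]

theorem lift_eq_val {k : ℕ} {H : Type*} [Group H] (p : Fin k → H) (w : FreeGroup (Fin k)) :
    FreeGroup.lift p w = val p w.toWord := by
  conv_lhs => rw [← FreeGroup.mk_toWord (x := w)]
  rw [FreeGroup.lift_mk]
  rfl

theorem hom_eq_val {k : ℕ} {H : Type*} [Group H] (f : FreeGroup (Fin k) →* H)
    (w : FreeGroup (Fin k)) : f w = val (fun s => f (FreeGroup.of s)) w.toWord := by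
  rw [← lift_eq_val]
  congr 1
  ext s
  simp

/-- Left multiplication by `γ` on a finite set, completed to a permutation. -/
theorem exists_perm {n : ℕ} {Γ : Type*} [Group Γ] (a : Fin n → Γ) (ha : Function.Injective a)
    (γ : Γ) : ∃ π : Equiv.Perm (Fin n), ∀ i j, γ * a i = a j → π i = j := by
  classical
  let P : Fin n → Prop := fun i => ∃ j, γ * a i = a j
  let Q : Fin n → Prop := fun j => ∃ i, γ * a i = a j
  have hP : ∀ i : {i // P i}, ∃ j, γ * a i = a j := fun i => i.2
  choose u hu using hP
  let F : {i // P i} → {j // Q j} := fun i => ⟨u i, i, hu i⟩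
  have hF : Function.Bijective F := by
    constructor
    · intro i i' h
      have h1 : u i = u i' := congrArg Subtype.val h
      have h2 : γ * a i = γ * a i' := by rw [hu, hu, h1]
      exact Subtype.ext (ha (mul_left_cancel h2))
    · rintro ⟨j, i, hij⟩
      refine ⟨⟨i, j, hij⟩, Subtype.ext ?_⟩
      apply ha
      show a (u ⟨i, j, hij⟩) = a j
      rw [← hu ⟨i, j, hij⟩]
      exact hij
  refine ⟨(Equiv.ofBijective F hF).extendSubtype, fun i j hij => ?_⟩
  rw [Equiv.extendSubtype_apply_of_mem _ i ⟨j, hij⟩]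
  apply ha
  show a (u ⟨i, j, hij⟩) = a j
  rw [← hu ⟨i, j, hij⟩]
  exact hij

section walk

variable {n k : ℕ} {Γ : Type*} [Group Γ] {a : Fin n → Γ}
  {g : Fin k → Γ} {p : Fin k → Equiv.Perm (Fin n)}
  (hp : ∀ s i j, g s * a i = a j → p s i = j)

include hp

theorem ltr_step (x : Fin k × Bool) (i j : Fin n) (h : ltr g x * a i = a j) : ltr p x i = j := by
  obtain ⟨s, b⟩ := x
  cases b with
  | true => exact hp s i j h
  | false =>
    have h' : (g s)⁻¹ * a i = a j := h
    show (p s)⁻¹ i = j
    rw [Equiv.Perm.inv_eq_iff_eq]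
    symm
    apply hp
    rw [← h', mul_inv_cancel_left]

theorem walk (L : List (Fin k × Bool)) (i : Fin n)
    (h : ∀ u ∈ L.tails, ∃ j, val g u * a i = a j) : val g L * a i = a (val p L i) := by
  induction L with
  | nil => simp [val]
  | cons x L ih =>
    have h1 : val g L * a i = a (val p L i) := by
      apply ih
      intro u hu
      exact h u (by simp [hu])
    obtain ⟨j, hj⟩ := h (x :: L) (by simp)
    rw [val_cons, val_cons, Equiv.Perm.mul_apply, mul_assoc, h1]
    rw [val_cons, mul_assoc, h1] at hj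
    rw [ltr_step hp x _ _ hj, hj]

end walk

section flex

variable {n N k : ℕ} (h : n ≤ N) {p : Fin k → Equiv.Perm (Fin n)} {q : Fin k → Equiv.Perm (Fin N)}

open Classical in
theorem ltr_bad (c : ℕ)
    (hc : ∀ s, (Finset.univ.filter (fun i : Fin n =>
      q s (Fin.castLE h i) ≠ Fin.castLE h (p s i))).card ≤ c) (x : Fin k × Bool) :
    (Finset.univ.filter (fun i : Fin n =>
      ltr q x (Fin.castLE h i) ≠ Fin.castLE h (ltr p x i))).card ≤ c := by
  obtain ⟨s, b⟩ := x
  cases b with
  | true => exact hc s
  | false =>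
    refine le_trans ?_ (hc s)
    refine Finset.card_le_card_of_injOn (fun i => (p s)⁻¹ i) ?_ ?_
    · intro i hi
      simp only [Finset.coe_filter, Finset.mem_univ, true_and, Set.mem_ofPred_eq] at hi ⊢
      intro hcon
      apply hi
      show (q s)⁻¹ (Fin.castLE h i) = Fin.castLE h ((p s)⁻¹ i)
      rw [Equiv.Perm.inv_eq_iff_eq]
      rw [hcon]
      simp
    · intro i _ j _ hij
      exact (p s)⁻¹.injective hij

open Classical in
theorem val_bad (c : ℕ)
    (hc : ∀ s, (Finset.univ.filter (fun i : Fin n =>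
      q s (Fin.castLE h i) ≠ Fin.castLE h (p s i))).card ≤ c) (L : List (Fin k × Bool)) :
    (Finset.univ.filter (fun i : Fin n =>
      val q L (Fin.castLE h i) ≠ Fin.castLE h (val p L i))).card ≤ L.length * c := by
  induction L with
  | nil => simp [val]
  | cons x L ih =>
    have hsub : (Finset.univ.filter (fun i : Fin n =>
        val q (x :: L) (Fin.castLE h i) ≠ Fin.castLE h (val p (x :: L) i))) ⊆
        (Finset.univ.filter (fun i : Fin n =>
          val q L (Fin.castLE h i) ≠ Fin.castLE h (val p L i))) ∪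
        (Finset.univ.filter (fun i : Fin n =>
          ltr q x (Fin.castLE h (val p L i)) ≠ Fin.castLE h (ltr p x (val p L i)))) := by
      intro i hi
      simp only [Finset.mem_union, Finset.mem_filter, Finset.mem_univ, true_and] at hi ⊢
      by_contra hcon
      push Not at hcon
      apply hi
      rw [val_cons, val_cons, Equiv.Perm.mul_apply, Equiv.Perm.mul_apply, hcon.1, hcon.2]
    have h2 : (Finset.univ.filter (fun i : Fin n =>
        ltr q x (Fin.castLE h (val p L i)) ≠ Fin.castLE h (ltr p x (val p L i)))).card ≤ c := by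
      refine le_trans ?_ (ltr_bad h c hc x)
      refine Finset.card_le_card_of_injOn (fun i => val p L i) ?_ ?_
      · intro i hi
        simpa using hi
      · intro i _ j _ hij
        exact (val p L).injective hij
    calc _ ≤ _ := Finset.card_le_card hsub
      _ ≤ _ := Finset.card_union_le _ _
      _ ≤ L.length * c + c := Nat.add_le_add ih h2
      _ = (x :: L).length * c := by rw [List.length_cons]; ring

end flex

/-- An amenable (Følner) group which is very flexibly stable in permutations is residually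
finite. -/
theorem rf_of_stable {Γ : Type*} [Group Γ] (hF : Folner Γ) {k : ℕ} (f : FreeGroup (Fin k) →* Γ)
    (hf : Function.Surjective f) (hs : VFStable f) (γ : Γ) (hγ : γ ≠ 1) :
    ∃ (N : ℕ) (φ : Γ →* Equiv.Perm (Fin N)), φ γ ≠ 1 := by
  classical
  obtain ⟨w, rfl⟩ := hf γ
  set g : Fin k → Γ := fun s => f (FreeGroup.of s) with hg
  set L := w.toWord with hL
  have hε : (0 : ℝ) < 1 / (2 * (L.length + 1)) := by positivity
  obtain ⟨R, δ, hR, hδ, hst⟩ := hs _ hε
  -- the words
  let W : Finset (FreeGroup (Fin k)) := insert w R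
  let M : ℕ := ∑ r ∈ W, (r.toWord.length + 1)
  have hM : ∀ r ∈ W, r.toWord.length + 1 ≤ M := fun r hr =>
    Finset.single_le_sum (f := fun r => r.toWord.length + 1) (fun _ _ => Nat.zero_le _) hr
  have hM1 : 1 ≤ M := le_trans (by omega) (hM w (Finset.mem_insert_self _ _))
  let S : Finset Γ := W.biUnion (fun r => (r.toWord.tails.map (val g)).toFinset)
  let η : ℝ := min (δ / 2) (1 / 4) / M
  have hMpos : (0 : ℝ) < M := by exact_mod_cast hM1
  have hη : 0 < η := div_pos (lt_min (by linarith) (by norm_num)) hMpos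
  obtain ⟨E, hE, hEB⟩ := hF S η hη
  -- enumeration
  let n := E.card
  have hn : 0 < n := hE.card_pos
  have hn' : (0 : ℝ) < n := by exact_mod_cast hn
  let a : Fin n → Γ := fun i => (E.equivFin.symm i : Γ)
  have ha : Function.Injective a := fun i j hij => E.equivFin.symm.injective (Subtype.ext hij)
  have haE : ∀ x ∈ E, ∃ i, a i = x := fun x hx => ⟨E.equivFin ⟨x, hx⟩, by simp [a]⟩
  have haE' : ∀ i, a i ∈ E := fun i => (E.equivFin.symm i).2
  have hcnt : ∀ s ∈ S, ((Finset.univ.filter (fun i : Fin n => ¬ ∃ j, s * a i = a j)).card : ℝ)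
      ≤ η * n := by
    intro s hs
    obtain ⟨B, hB, hB'⟩ := hEB s hs
    refine le_trans ?_ hB
    norm_cast
    refine Finset.card_le_card_of_injOn a ?_ (ha.injOn)
    intro i hi
    simp only [Finset.coe_filter, Finset.mem_univ, true_and, Set.mem_ofPred_eq] at hi
    rcases hB' (a i) (haE' i) with h | h
    · exact absurd (haE _ h) (fun ⟨j, hj⟩ => hi ⟨j, hj.symm⟩)
    · exact h
  choose p hp using fun s : Fin k => exists_perm a ha (g s)
  -- words act correctly at most points
  let good : FreeGroup (Fin k) → Fin n → Prop := fun r i =>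
    ∀ u ∈ r.toWord.tails, ∃ j, val g u * a i = a j
  have hgood : ∀ r i, good r i → f r * a i = a (val p r.toWord i) := by
    intro r i h
    rw [hom_eq_val f r]
    exact walk hp _ i h
  have hbad : ∀ r ∈ W, ((Finset.univ.filter (fun i : Fin n => ¬ good r i)).card : ℝ)
      ≤ min (δ / 2) (1 / 4) * n := by
    intro r hr
    have hsub : (Finset.univ.filter (fun i : Fin n => ¬ good r i)) ⊆
        r.toWord.tails.toFinset.biUnion (fun u =>
          Finset.univ.filter (fun i : Fin n => ¬ ∃ j, val g u * a i = a j)) := by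
      intro i hi
      simp only [Finset.mem_filter, Finset.mem_univ, true_and, good] at hi
      push Not at hi
      obtain ⟨u, hu, hu'⟩ := hi
      simp only [Finset.mem_biUnion, List.mem_toFinset, Finset.mem_filter, Finset.mem_univ,
        true_and]
      exact ⟨u, hu, by push Not; exact hu'⟩
    have h1 : ((Finset.univ.filter (fun i : Fin n => ¬ good r i)).card : ℝ) ≤
        ∑ u ∈ r.toWord.tails.toFinset,
          ((Finset.univ.filter (fun i : Fin n => ¬ ∃ j, val g u * a i = a j)).card : ℝ) := by
      have := (Finset.card_le_card hsub).trans Finset.card_biUnion_le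
      exact_mod_cast this
    have h2 : ∀ u ∈ r.toWord.tails.toFinset,
        ((Finset.univ.filter (fun i : Fin n => ¬ ∃ j, val g u * a i = a j)).card : ℝ) ≤ η * n := by
      intro u hu
      apply hcnt
      refine Finset.mem_biUnion.2 ⟨r, hr, ?_⟩
      rw [List.mem_toFinset, List.mem_map]
      exact ⟨u, List.mem_toFinset.1 hu, rfl⟩
    have h3 := Finset.sum_le_card_nsmul _ _ _ h2
    have h4 : r.toWord.tails.toFinset.card ≤ M := by
      refine (List.toFinset_card_le _).trans ?_
      rw [List.length_tails]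
      exact hM r hr
    have h5 : (r.toWord.tails.toFinset.card : ℝ) ≤ M := by exact_mod_cast h4
    calc _ ≤ _ := h1
      _ ≤ _ := h3
      _ = (r.toWord.tails.toFinset.card : ℝ) * (η * n) := by rw [nsmul_eq_mul]
      _ ≤ M * (η * n) := mul_le_mul_of_nonneg_right h5 (by positivity)
      _ = min (δ / 2) (1 / 4) * n := by
        simp only [η]
        field_simp
  obtain ⟨N, hN, q, hq, hqp⟩ := hst n p (by
    intro r hr
    have h1 := hbad r (Finset.mem_insert_of_mem hr)
    have h2 : Nat.card {i // FreeGroup.lift p r i ≠ i} ≤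
        (Finset.univ.filter (fun i : Fin n => ¬ good r i)).card := by
      rw [Nat.card_eq_fintype_card, Fintype.card_subtype]
      refine Finset.card_le_card ?_
      intro i hi
      simp only [Finset.mem_filter, Finset.mem_univ, true_and] at hi ⊢
      intro hgi
      apply hi
      have h3 := hgood r i hgi
      rw [hR r hr, one_mul] at h3
      rw [lift_eq_val]
      exact (ha h3).symm
    have h3 : (Nat.card {i // FreeGroup.lift p r i ≠ i} : ℝ) ≤ min (δ / 2) (1 / 4) * n :=
      le_trans (by exact_mod_cast h2) h1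
    have h4 : min (δ / 2) (1 / 4) ≤ δ / 2 := min_le_left _ _
    nlinarith)
  -- a point where everything is right
  have hc : ∀ s, (Finset.univ.filter (fun i : Fin n =>
      q s (Fin.castLE hN i) ≠ Fin.castLE hN (p s i))).card ≤ ⌊(1 / (2 * (L.length + 1)) : ℝ) * n⌋₊ := by
    intro s
    apply Nat.le_floor
    have := (hqp s).le
    rw [Nat.card_eq_fintype_card, Fintype.card_subtype] at this
    exact this
  have hflex := val_bad hN _ hc L
  have hflex' : ((Finset.univ.filter (fun i : Fin n =>
      val q L (Fin.castLE hN i) ≠ Fin.castLE hN (val p L i))).card : ℝ) ≤ 1 / 2 * n := by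
    have h1 : ((Finset.univ.filter (fun i : Fin n =>
        val q L (Fin.castLE hN i) ≠ Fin.castLE hN (val p L i))).card : ℝ) ≤
        (L.length : ℝ) * (⌊(1 / (2 * (L.length + 1)) : ℝ) * n⌋₊ : ℝ) := by exact_mod_cast hflex
    have h2 : (⌊(1 / (2 * (L.length + 1)) : ℝ) * n⌋₊ : ℝ) ≤ (1 / (2 * (L.length + 1)) : ℝ) * n :=
      Nat.floor_le (by positivity)
    have h3 : (L.length : ℝ) * ((1 / (2 * (L.length + 1)) : ℝ) * n) ≤ 1 / 2 * n := by
      have : (L.length : ℝ) * (1 / (2 * (L.length + 1)) : ℝ) ≤ 1 / 2 := by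
        rw [mul_one_div, div_le_iff₀ (by positivity)]
        nlinarith [Nat.cast_nonneg (α := ℝ) L.length]
      calc (L.length : ℝ) * ((1 / (2 * (L.length + 1)) : ℝ) * n)
          = ((L.length : ℝ) * (1 / (2 * (L.length + 1)) : ℝ)) * n := by ring
        _ ≤ 1 / 2 * n := mul_le_mul_of_nonneg_right this hn'.le
    calc _ ≤ _ := h1
      _ ≤ (L.length : ℝ) * ((1 / (2 * (L.length + 1)) : ℝ) * n) :=
        mul_le_mul_of_nonneg_left h2 (Nat.cast_nonneg _)
      _ ≤ _ := h3
  have hbw := hbad w (Finset.mem_insert_self _ _)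
  have hex : ∃ i : Fin n, good w i ∧ val q L (Fin.castLE hN i) = Fin.castLE hN (val p L i) := by
    by_contra hcon
    push Not at hcon
    have hsub : (Finset.univ : Finset (Fin n)) ⊆
        (Finset.univ.filter (fun i : Fin n => ¬ good w i)) ∪ (Finset.univ.filter (fun i : Fin n =>
          val q L (Fin.castLE hN i) ≠ Fin.castLE hN (val p L i))) := by
      intro i _
      simp only [Finset.mem_union, Finset.mem_filter, Finset.mem_univ, true_and]
      by_cases h : good w i
      · exact Or.inr (hcon i h)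
      · exact Or.inl h
    have h1 := (Finset.card_le_card hsub).trans (Finset.card_union_le _ _)
    rw [Finset.card_univ, Fintype.card_fin] at h1
    have h2 : (n : ℝ) ≤ ((Finset.univ.filter (fun i : Fin n => ¬ good w i)).card : ℝ) +
      ((Finset.univ.filter (fun i : Fin n =>
          val q L (Fin.castLE hN i) ≠ Fin.castLE hN (val p L i))).card : ℝ) := by exact_mod_cast h1
    have h4 : min (δ / 2) (1 / 4) ≤ (1 / 4 : ℝ) := min_le_right _ _
    nlinarith
  obtain ⟨i, hi, hi'⟩ := hex
  have hne : FreeGroup.lift q w ≠ 1 := by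
    intro h
    rw [lift_eq_val] at h
    have h1 : val q L (Fin.castLE hN i) = Fin.castLE hN i := by
      rw [hL, h]; rfl
    rw [hi'] at h1
    have h2 : val p L i = i := Fin.castLE_injective hN h1
    have h3 := hgood w i hi
    rw [← hL, h2] at h3
    exact hγ (mul_eq_right.1 h3)
  let ψ : Γ →* Equiv.Perm (Fin N) := (f.liftOfSurjective hf) ⟨FreeGroup.lift q, fun x hx => hq x hx⟩
  refine ⟨N, ψ, ?_⟩
  have : ψ (f w) = FreeGroup.lift q w :=
    MonoidHom.liftOfRightInverse_comp_apply f _ _ ⟨FreeGroup.lift q, fun x hx => hq x hx⟩ w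
  rw [this]
  exact hne

end Pool.Agent.Helper11.PS
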